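import Pool.Agent.PSS.StmtsG
import Pool.Agent.Helper6_PFD.EIX

/-!
Squad PSS, row QRX (helper33): the inertial quotient in a subgroup.
-/

open scoped BigOperators

noncomputable section

namespace Pool.Agent.PSS.H33

open Pool.Agent.Helper51_AWC Pool.Agent.Helper79_WRA Pool.Agent.PP Pool.Agent.PP.KF
open Pool.Agent.PP.K9 Pool.Agent.PP.K9.H97 Pool.Agent.PP.H75 Pool.Agent.PP.T3 Pool.Agent.PP.T2
open Pool.Agent.PP.TB (Zd Star iz cz)
open Pool.Agent.PFD (Ei)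
open Pool.Agent.PFD.H6 (mem_Ei v_le_c)

theorem qrx : QrxStmt := by
  intro ℓ F _ G _ _ e V γ h X hX
  have hVC := v_le_c h.ab
  have hVX : V ≤ X := hVC.trans hX
  have hTg := T3.H85.Tg_eq hVX hX h.gam.supp
  obtain ⟨a, ha⟩ : ∃ a : V.subgroupOf X ≃* V, ∀ v : V.subgroupOf X, ((a v : V) : G) = ((v : X) : G) :=
    ⟨Subgroup.subgroupOfEquivOfLe hVX, fun v => rfl⟩
  have hs : ∀ v : V, (((a.symm v : V.subgroupOf X) : X) : G) = v := fun v => by
    rw [← ha, MulEquiv.apply_symm_apply]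
  refine ⟨a.symm, hs, a.symm.surjective, ?_⟩
  intro a' ha'
  obtain ⟨t, ht, hat⟩ := mem_Ei.1 ha'
  rw [hTg, Subgroup.mem_subgroupOf] at ht
  refine ⟨(MulAut.congr a) a', mem_Ei.2 ⟨(t : G), ht.1, fun v => ?_⟩, fun v => ?_⟩
  · show ((a (a' (a.symm v)) : V) : G) = _
    rw [ha, hat, Subgroup.coe_mul, Subgroup.coe_mul, Subgroup.coe_inv, hs]
  · show a.symm (a (a' (a.symm v))) = a' (a.symm v)
    rw [MulEquiv.symm_apply_apply]

end Pool.Agent.PSS.H33
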