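import Pool.Agent.PSS.StmtsS1b

/-!
Squad PSS, row H2V (helper33): `H^2(A|W; B/A) = 0`, assembly.
-/

open scoped BigOperators TensorProduct

noncomputable section

namespace Pool.Agent.PSS.H33

open Pool.Agent.PFD.D2b (FrR)
open Finset

section

variable {R A B : Type} [CommRing R] [Ring A] [Algebra R A] [Ring B] [Algebra R B]

lemma in_add {i : A →ₐ[R] B} {x y : B} (hx : In i x) (hy : In i y) : In i (x + y) := by
  obtain ⟨a, rfl⟩ := hx
  obtain ⟨b, rfl⟩ := hy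
  exact ⟨a + b, map_add i a b⟩

lemma in_sub {i : A →ₐ[R] B} {x y : B} (hx : In i x) (hy : In i y) : In i (x - y) := by
  obtain ⟨a, rfl⟩ := hx
  obtain ⟨b, rfl⟩ := hy
  exact ⟨a - b, map_sub i a b⟩

lemma in_ml {i : A →ₐ[R] B} {x : B} (c : A) (hx : In i x) : In i (i c * x) := by
  obtain ⟨a, rfl⟩ := hx
  exact ⟨c * a, map_mul i c a⟩

lemma in_mr {i : A →ₐ[R] B} {x : B} (c : A) (hx : In i x) : In i (x * i c) := by
  obtain ⟨a, rfl⟩ := hx
  exact ⟨a * c, map_mul i a c⟩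

end

section

variable {K V B : Type} [Field K] [CommGroup V] [Ring B] [Algebra K B]

/-- `cc + d1 g` as a bilinear map -/
def cg (cc : B →ₗ[K] B →ₗ[K] B) (g : B →ₗ[K] B) : B →ₗ[K] B →ₗ[K] B :=
  LinearMap.mk₂ K (fun x y => cc x y + d1 g x y)
    (fun x x' y => by
      simp only [d1, map_add, LinearMap.add_apply, add_mul]
      abel)
    (fun r x y => by
      simp only [d1, map_smul, LinearMap.smul_apply, smul_mul_assoc, smul_add, smul_sub])
    (fun x y y' => by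
      simp only [d1, map_add, mul_add]
      abel)
    (fun r x y => by
      simp only [d1, map_smul, mul_smul_comm, smul_add, smul_sub])

lemma cg_apply (cc : B →ₗ[K] B →ₗ[K] B) (g : B →ₗ[K] B) (x y : B) :
    cg cc g x y = cc x y + d1 g x y := rfl

lemma cg_wb {cc : B →ₗ[K] B →ₗ[K] B} {g : B →ₗ[K] B} {β : V →* B} {W : Subgroup V}
    (hc : WB2 β W (fun a b => cc a b)) (hg : WBl β W g) : WB2 β W (fun a b => cg cc g a b) := by
  intro w hw x y
  obtain ⟨h1, h2, h3⟩ := hc w hw x y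
  beta_reduce at h1 h2 h3
  simp only [cg_apply, d1]
  refine ⟨?_, ?_, ?_⟩
  · rw [h1, mul_assoc (β w) x y, (hg w hw (x * y)).1, (hg w hw x).1]
    simp only [mul_add, mul_sub, mul_assoc]
  · rw [h2, (hg w hw y).1, (hg w hw x).2]
    simp only [mul_assoc]
  · rw [h3, (hg w hw y).2, ← mul_assoc x y, (hg w hw (x * y)).2]
    simp only [add_mul, sub_mul, mul_assoc]

lemma cg_nrm {cc : B →ₗ[K] B →ₗ[K] B} {g : B →ₗ[K] B}
    (hc : Nrm (fun a b => cc a b)) (hg : g 1 = 0) : Nrm (fun a b => cg cc g a b) := by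
  obtain ⟨h1, h2⟩ := hc
  refine ⟨fun x => ?_, fun x => ?_⟩
  · have h := h1 x
    simp only at h
    simp only [cg_apply, d1]
    rw [h, hg, one_mul, one_mul, zero_mul, sub_self, add_zero, add_zero]
  · have h := h2 x
    simp only at h
    simp only [cg_apply, d1]
    rw [h, hg, mul_one, mul_one, mul_zero, zero_sub, neg_add_cancel, add_zero]

lemma cg_dl (cc : B →ₗ[K] B →ₗ[K] B) (g : B →ₗ[K] B) (x y z : B) :
    dl (fun a b => cg cc g a b) x y z = dl (fun a b => cc a b) x y z := by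
  simp only [cg_apply, dl, d1, mul_add, add_mul, mul_sub, sub_mul, mul_assoc]
  abel

end

theorem h2v (csu : CsuStmt) (hcb : HcbStmt) (hcc : HccStmt) (lfg : LfgStmt) : H2vStmt := by
  intro R K V E A B κ Ω _ _ _ _ _ _ _ _ _ _ _ _ _ _ _ φ W z α lam x y b c C u hV hS hu cc hw hn hc
  obtain ⟨-, hcsm⟩ := csu R V A κ α lam x y u C.rf hu
  obtain ⟨g₁, hg1w, hg1, hb⟩ := hcb R K V E A B κ Ω φ W z α lam x y b c C hV hS cc hw hn hc
  obtain ⟨g₂, hg2w, hg2, hg2c⟩ := hcc R K V A B κ Ω W α lam x y b c C κ x (fun i => y i * u) hcsm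
    (cg cc g₁) (cg_wb hw hg1w) (cg_nrm hn hg1) (fun a₁ a₂ a₃ => by
      rw [cg_dl]
      exact hc a₁ a₂ a₃) (fun v a => hb v a)
  obtain ⟨H, hHw, hH1, hH⟩ := lfg R K V A B κ Ω W α lam x y b c C g₂ hg2w hg2
  refine ⟨H - g₁, fun w hw' t => ⟨?_, ?_⟩, ?_, fun a₁ a₂ => ?_⟩
  · rw [LinearMap.sub_apply, LinearMap.sub_apply, (hHw w hw' t).1, (hg1w w hw' t).1, mul_sub]
  · rw [LinearMap.sub_apply, LinearMap.sub_apply, (hHw w hw' t).2, (hg1w w hw' t).2, sub_mul]
  · rw [LinearMap.sub_apply, hH1, hg1, sub_zero]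
  · have h1 := hg2c a₁ a₂
    have h2 := in_ml a₁ (hH a₂)
    have h3 := hH (a₁ * a₂)
    have h4 := in_mr a₂ (hH a₁)
    have h5 := in_sub h1 (in_add (in_sub h2 h3) h4)
    rw [cg_apply] at h5
    refine (congrArg (In C.i) ?_).mp h5
    simp only [d1, LinearMap.sub_apply, map_mul, mul_sub, sub_mul]
    abel

end Pool.Agent.PSS.H33
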